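import Mathlib

set_option autoImplicit false

/-!
The fire on the honeycomb in hexagonal coordinates: the vertices are the triples of integers with
coordinate sum `0` (neighbours `v + e i`) or `1` (neighbours `v - e i`).
-/

namespace HexRate

/-- triples of integers -/
abbrev W := Fin 3 → ℤ

/-- coordinate sum -/
def sm (v : W) : ℤ := v 0 + v 1 + v 2

/-- change of one coordinate -/
def nb (ε : ℤ) (i : Fin 3) (v : W) : W := Function.update v i (v i + ε)

theorem nb_same (ε : ℤ) (i : Fin 3) (v : W) : nb ε i v i = v i + ε := by simp [nb]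

theorem nb_ne (ε : ℤ) (i j : Fin 3) (v : W) (h : j ≠ i) : nb ε i v j = v j := by simp [nb, h]

theorem sm_nb (ε : ℤ) (i : Fin 3) (v : W) : sm (nb ε i v) = sm v + ε := by
  fin_cases i <;> simp [sm, nb, Function.update] <;> ring

/-- the sign of the spreading step `t → t + 1` -/
def ep (t : ℕ) : ℤ := if t % 2 = 0 then 1 else -1

/-- the coordinate sum of the vertices that spread in the step `t → t + 1` -/
def tp (t : ℕ) : ℤ := ((t % 2 : ℕ) : ℤ)

theorem ep_cases (t : ℕ) : (ep t = 1 ∧ tp t = 0) ∨ (ep t = -1 ∧ tp t = 1) := by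
  unfold ep tp
  rcases Nat.mod_two_eq_zero_or_one t with h | h
  · left; simp [h]
  · right; simp [h]

theorem ep_succ (t : ℕ) : ep (t + 1) = - ep t := by
  unfold ep
  split_ifs <;> omega

theorem tp_succ (t : ℕ) : tp (t + 1) = 1 - tp t := by
  unfold tp
  omega

/-- the fire process in hexagonal coordinates -/
structure Play (B P : ℕ → Finset W) : Prop where
  B0 : B 0 = {0}
  P0 : P 0 = ∅
  mono : ∀ t, P t ⊆ P (t + 1)
  disj : ∀ t, ∀ v ∈ P (t + 1), v ∉ B t
  step : ∀ t v, v ∈ B (t + 1) ↔ v ∈ B t ∨ (v ∉ P (t + 1) ∧ ∃ u ∈ B t, ∃ i,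
    (sm u = 0 ∧ v = nb 1 i u) ∨ (sm u = 1 ∧ v = nb (-1) i u))

/-- the fire process with the parity information made explicit -/
structure Game (B P : ℕ → Finset W) : Prop where
  B0 : B 0 = {0}
  P0 : P 0 = ∅
  mono : ∀ t, P t ⊆ P (t + 1)
  sm01 : ∀ t, ∀ v ∈ B t, sm v = 0 ∨ sm v = 1
  step : ∀ t v, v ∈ B (t + 1) ↔ v ∈ B t ∨ (v ∉ P (t + 1) ∧ ∃ u ∈ B t, sm u = tp t ∧
    ∃ i, v = nb (ep t) i u)

theorem Play.sm01 {B P : ℕ → Finset W} (h : Play B P) (t : ℕ) :
    ∀ v ∈ B t, sm v = 0 ∨ sm v = 1 := by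
  induction t with
  | zero =>
    intro v hv
    rw [h.B0, Finset.mem_singleton] at hv
    subst hv
    left
    simp [sm]
  | succ t ih =>
    intro v hv
    rw [h.step] at hv
    rcases hv with hv | ⟨-, u, hu, i, ⟨h1, rfl⟩ | ⟨h1, rfl⟩⟩
    · exact ih v hv
    · right; rw [sm_nb, h1]; rfl
    · left; rw [sm_nb, h1]; rfl

theorem Play.old {B P : ℕ → Finset W} (h : Play B P) (t : ℕ) :
    ∀ u ∈ B t, sm u = tp (t + 1) → ∀ i, nb (ep (t + 1)) i u ∈ B t ∨ nb (ep (t + 1)) i u ∈ P t := by
  induction t with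
  | zero =>
    intro v hv h1
    rw [h.B0, Finset.mem_singleton] at hv
    subst hv
    simp [sm, tp] at h1
  | succ t ih =>
    intro v hv h1 i
    rw [tp_succ, tp_succ] at h1
    rw [ep_succ, ep_succ, neg_neg]
    have h1' : sm v = tp t := by omega
    by_cases hvt : v ∈ B t
    · by_cases hp : nb (ep t) i v ∈ P (t + 1)
      · right; exact hp
      · left
        rw [h.step]
        right
        refine ⟨hp, v, hvt, i, ?_⟩
        rcases ep_cases t with ⟨e1, e2⟩ | ⟨e1, e2⟩
        · left; rw [e1]; exact ⟨by omega, rfl⟩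
        · right; rw [e1]; exact ⟨by omega, rfl⟩
    · exfalso
      rw [h.step] at hv
      rcases hv with hv | ⟨hp, u, hu, j, hj⟩
      · exact hvt hv
      · have h3 : sm u = tp (t + 1) ∧ v = nb (ep (t + 1)) j u := by
          rw [tp_succ, ep_succ]
          rcases ep_cases t with ⟨e1, e2⟩ | ⟨e1, e2⟩
          · rcases hj with ⟨h4, h5⟩ | ⟨h4, h5⟩
            · exfalso
              rw [h5, sm_nb] at h1'
              omega
            · rw [e1, e2]
              exact ⟨by omega, h5⟩
          · rcases hj with ⟨h4, h5⟩ | ⟨h4, h5⟩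
            · rw [e1, e2]
              exact ⟨by omega, by simpa using h5⟩
            · exfalso
              rw [h5, sm_nb] at h1'
              omega
        rcases ih u hu h3.1 j with h6 | h6
        · rw [← h3.2] at h6
          exact hvt h6
        · rw [← h3.2] at h6
          exact hp (h.mono t h6)

theorem Play.game {B P : ℕ → Finset W} (h : Play B P) : Game B P where
  B0 := h.B0
  P0 := h.P0
  mono := h.mono
  sm01 := h.sm01
  step := by
    intro t v
    rw [h.step]
    constructor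
    · rintro (h1 | ⟨h1, u, hu, i, h2⟩)
      · left; exact h1
      · by_cases h3 : sm u = tp t
        · right
          refine ⟨h1, u, hu, h3, i, ?_⟩
          rcases ep_cases t with ⟨e1, e2⟩ | ⟨e1, e2⟩
          · rcases h2 with ⟨h4, h5⟩ | ⟨h4, h5⟩
            · rw [e1]; exact h5
            · omega
          · rcases h2 with ⟨h4, h5⟩ | ⟨h4, h5⟩
            · omega
            · rw [e1]; exact h5
        · have h4 : sm u = tp (t + 1) ∧ v = nb (ep (t + 1)) i u := by
            rw [tp_succ, ep_succ]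
            rcases ep_cases t with ⟨e1, e2⟩ | ⟨e1, e2⟩
            · rcases h2 with ⟨h4, h5⟩ | ⟨h4, h5⟩
              · omega
              · rw [e1, e2]
                exact ⟨by omega, h5⟩
            · rcases h2 with ⟨h4, h5⟩ | ⟨h4, h5⟩
              · rw [e1, e2]
                exact ⟨by omega, by simpa using h5⟩
              · omega
          rcases h.old t u hu h4.1 i with h6 | h6
          · left; rw [h4.2]; exact h6
          · exfalso
            rw [← h4.2] at h6
            exact h1 (h.mono t h6)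
    · rintro (h1 | ⟨h1, u, hu, h3, i, h2⟩)
      · left; exact h1
      · right
        refine ⟨h1, u, hu, i, ?_⟩
        rcases ep_cases t with ⟨e1, e2⟩ | ⟨e1, e2⟩
        · left; rw [← e1]; exact ⟨by omega, h2⟩
        · right; rw [← e1]; exact ⟨by omega, h2⟩

/-- the heights of the burning set in the six directions -/
def M (B : ℕ → Finset W) (σ : ℤ) (i : Fin 3) : ℕ → ℤ
  | 0 => 0
  | (t + 1) => if ∃ v ∈ B (t + 1), σ * v i = M B σ i t + 1 then M B σ i t + 1 else M B σ i t

variable {B P : ℕ → Finset W}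

theorem M_succ_cases (σ : ℤ) (i : Fin 3) (t : ℕ) :
    (M B σ i (t + 1) = M B σ i t + 1 ∧ ∃ v ∈ B (t + 1), σ * v i = M B σ i t + 1) ∨
    (M B σ i (t + 1) = M B σ i t ∧ ∀ v ∈ B (t + 1), σ * v i ≠ M B σ i t + 1) := by
  by_cases h : ∃ v ∈ B (t + 1), σ * v i = M B σ i t + 1
  · left
    exact ⟨by simp only [M]; rw [if_pos h], h⟩
  · right
    refine ⟨by simp only [M]; rw [if_neg h], ?_⟩
    intro v hv hv2
    exact h ⟨v, hv, hv2⟩

theorem Game.sub (h : Game B P) (t : ℕ) : B t ⊆ B (t + 1) := by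
  intro v hv
  rw [h.step]
  left; exact hv

theorem M_le (h : Game B P) (σ : ℤ) (hσ : σ = 1 ∨ σ = -1) (i : Fin 3) (t : ℕ) :
    ∀ v ∈ B t, σ * v i ≤ M B σ i t := by
  induction t with
  | zero =>
    intro v hv
    rw [h.B0, Finset.mem_singleton] at hv
    subst hv
    simp [M]
  | succ t ih =>
    intro v hv
    have h1 : σ * v i ≤ M B σ i t + 1 := by
      have hv' := hv
      rw [h.step] at hv'
      rcases hv' with hv' | ⟨-, u, hu, -, j, rfl⟩
      · have := ih v hv'
        omega
      · have h2 := ih u hu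
        by_cases hj : i = j
        · subst hj
          rw [nb_same]
          rcases ep_cases t with ⟨e1, -⟩ | ⟨e1, -⟩ <;> rcases hσ with rfl | rfl <;>
            rw [e1] <;> omega
        · rw [nb_ne _ _ _ _ hj]
          omega
    rcases M_succ_cases (B := B) σ i t with ⟨h2, -⟩ | ⟨h2, h3⟩
    · omega
    · have := h3 v hv
      omega

theorem M_att (h : Game B P) (σ : ℤ) (i : Fin 3) (t : ℕ) :
    ∃ v ∈ B t, σ * v i = M B σ i t := by
  induction t with
  | zero =>
    refine ⟨0, ?_, ?_⟩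
    · rw [h.B0]; simp
    · simp [M]
  | succ t ih =>
    rcases M_succ_cases (B := B) σ i t with ⟨h2, v, h3, h4⟩ | ⟨h2, h3⟩
    · exact ⟨v, h3, by rw [h4, h2]⟩
    · obtain ⟨v, h3, h4⟩ := ih
      exact ⟨v, h.sub t h3, by rw [h4, h2]⟩

theorem M_mono (σ : ℤ) (i : Fin 3) (t : ℕ) : M B σ i t ≤ M B σ i (t + 1) := by
  rcases M_succ_cases (B := B) σ i t with ⟨h2, -⟩ | ⟨h2, -⟩ <;> omega

theorem M_nonneg (σ : ℤ) (i : Fin 3) (t : ℕ) : 0 ≤ M B σ i t := by
  induction t with
  | zero => simp [M]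
  | succ t ih =>
    have := M_mono (B := B) σ i t
    omega

theorem M_neg (h : Game B P) (i : Fin 3) (t : ℕ) :
    M B (-ep t) i (t + 1) = M B (-ep t) i t := by
  have hσ : -ep t = 1 ∨ -ep t = -1 := by
    rcases ep_cases t with ⟨e1, -⟩ | ⟨e1, -⟩ <;> rw [e1] <;> simp
  rcases M_succ_cases (B := B) (-ep t) i t with ⟨-, v, hv, h3⟩ | ⟨h2, -⟩
  · exfalso
    rw [h.step] at hv
    rcases hv with hv | ⟨-, u, hu, -, j, rfl⟩
    · have := M_le h (-ep t) hσ i t v hv
      omega
    · have h2 := M_le h (-ep t) hσ i t u hu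
      by_cases hj : i = j
      · subst hj
        rw [nb_same] at h3
        rcases ep_cases t with ⟨e1, -⟩ | ⟨e1, -⟩ <;> rw [e1] at h2 h3 <;> omega
      · rw [nb_ne _ _ _ _ hj] at h3
        omega
  · exact h2

end HexRate
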