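import Pool.Agent.HexRate.Step

set_option autoImplicit false

/-!
The growth theorem and the upper bounds for the estimated set.
-/

namespace HexRate

variable {B P : ℕ → Finset W}

/-- the constant term -/
def cst (Tp Tm : Finset (Fin 3)) : ℕ := (Tp ∪ Tm.biUnion (fun k => Finset.univ.erase k)).card

/-- the constant term with the parity of `t` -/
def cs (t : ℕ) (TL TQ : Finset (Fin 3)) : ℕ := if t % 2 = 0 then cst TL TQ else cst TQ TL

theorem cs_succ (t : ℕ) (TL TQ : Finset (Fin 3)) : cs (t + 1) TL TQ = cs t TQ TL := by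
  unfold cs
  rcases Nat.mod_two_eq_zero_or_one t with h | h
  · rw [if_neg (by omega), if_pos h]
  · rw [if_pos (by omega), if_neg (by omega)]

theorem G (h : Game B P) (t : ℕ) : ∀ TL TQ : Finset (Fin 3),
    ∑ i ∈ TL, M B (ep t) i t + ∑ k ∈ TQ, M B (-ep t) k t + (cs t TL TQ : ℤ) ≤
      ((S B P TL TQ t).card : ℤ) := by
  classical
  induction t with
  | zero =>
    intro TL TQ
    simp only [M, Finset.sum_const_zero, zero_add]
    have h1 : cs 0 TL TQ = cst TL TQ := by simp [cs]
    rw [h1]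
    have h2 : (TL ∪ TQ.biUnion (fun k => Finset.univ.erase k)).card =
        ((TL ∪ TQ.biUnion (fun k => Finset.univ.erase k)).image (fun j => nb 1 j 0)).card := by
      rw [Finset.card_image_of_injective]
      intro i j hij
      have hij' : nb 1 i 0 = nb 1 j 0 := hij
      by_contra hne
      have := congrFun hij' i
      rw [nb_same, nb_ne _ _ _ _ hne] at this
      simp at this
    unfold cst
    rw [h2]
    norm_cast
    apply Finset.card_le_card
    intro w hw
    rw [Finset.mem_image] at hw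
    obtain ⟨j, hj, rfl⟩ := hw
    unfold S
    rw [Finset.mem_union]
    right
    unfold X
    rw [Finset.mem_filter]
    have e0 : ep 0 = 1 := by simp [ep]
    have hB0 : B 0 = {0} := h.B0
    constructor
    · rw [mem_C]
      refine ⟨?_, 0, ?_, ?_, j, ?_⟩
      · rw [hB0, Finset.mem_singleton]
        intro h3
        have := congrFun h3 j
        rw [nb_same] at this
        simp at this
      · rw [hB0]; simp
      · simp [sm, tp]
      · rw [e0]
    · rw [Finset.mem_union, Finset.mem_biUnion] at hj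
      rcases hj with hj | ⟨k, hk, hj⟩
      · left
        refine ⟨j, hj, ?_⟩
        rw [nb_same, e0]
        simp [M]
      · right
        refine ⟨k, hk, trivial, ?_⟩
        rw [Finset.mem_erase] at hj
        rw [nb_ne _ _ _ _ (fun h => hj.1 h.symm), e0]
        simp [M]
  | succ t ih =>
    intro TL TQ
    have h1 := ih TQ TL
    have h2 := G_step h t TQ TL
    have h3 : ∑ k ∈ TQ, M B (ep t) k (t + 1) = ∑ k ∈ TQ, M B (ep t) k t +
        ((TQ.filter (fun i => M B (ep t) i (t + 1) = M B (ep t) i t + 1)).card : ℤ) := by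
      rw [Finset.card_filter]
      push_cast
      rw [← Finset.sum_add_distrib]
      apply Finset.sum_congr rfl
      intro i _
      rcases M_succ_cases (B := B) (ep t) i t with ⟨h4, -⟩ | ⟨h4, -⟩
      · rw [h4, if_pos rfl]
      · rw [h4, if_neg (by omega)]
        simp
    have h5 : ∑ i ∈ TL, M B (-ep t) i (t + 1) = ∑ i ∈ TL, M B (-ep t) i t := by
      apply Finset.sum_congr rfl
      intro i _
      exact M_neg h i t
    rw [ep_succ, neg_neg, cs_succ, h3, h5]
    have h2' : ((S B P TQ TL t).card : ℤ) +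
      ((TQ.filter (fun i => M B (ep t) i (t + 1) = M B (ep t) i t + 1)).card : ℤ) ≤
      ((S B P TL TQ (t + 1)).card : ℤ) := by exact_mod_cast h2
    linarith

/-- number of points on a piece of a line -/
theorem line_card (σ : ℤ) (hσ : σ = 1 ∨ σ = -1) (i : Fin 3) (a s b c : ℤ) (T : Finset W)
    (hT : ∀ w ∈ T, w i = a ∧ sm w = s ∧ σ * w (i + 1) ≤ b ∧ σ * w (i + 2) ≤ c)
    (h0 : 0 ≤ b + c - σ * (s - a) + 1) : (T.card : ℤ) ≤ b + c - σ * (s - a) + 1 := by
  have hsm : ∀ w : W, sm w = w i + w (i + 1) + w (i + 2) := by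
    intro w
    unfold sm
    fin_cases i <;> simp <;> ring
  have h1 : T.card ≤ (Finset.Icc (σ * (s - a) - c) b).card := by
    apply Finset.card_le_card_of_injOn (fun w => σ * w (i + 1))
    · intro w hw
      obtain ⟨h2, h3, h4, h5⟩ := hT w hw
      rw [hsm] at h3
      simp only [Finset.coe_Icc, Set.mem_Icc]
      rcases hσ with rfl | rfl <;> constructor <;> omega
    · intro w hw w' hw' heq
      obtain ⟨h2, h3, -, -⟩ := hT w hw
      obtain ⟨h2', h3', -, -⟩ := hT w' hw'
      rw [hsm] at h3 h3'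
      have heq' : σ * w (i + 1) = σ * w' (i + 1) := heq
      have e1 : w (i + 1) = w' (i + 1) := by
        rcases hσ with rfl | rfl <;> omega
      have e2 : w (i + 2) = w' (i + 2) := by omega
      have e0 : w i = w' i := by omega
      funext j
      fin_cases i <;> fin_cases j <;> simp at e0 e1 e2 ⊢ <;> assumption
  rw [Int.card_Icc] at h1
  omega

/-- bound for the candidates in a direction of `TL` -/
theorem L_bound (h : Game B P) (t : ℕ) (i : Fin 3) (T : Finset W)
    (hT : ∀ w ∈ T, w ∈ C B t ∧ ep t * w i = M B (ep t) i t + 1) :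
    (T.card : ℤ) ≤ M B (-ep t) (i + 1) t + M B (-ep t) (i + 2) t - M B (ep t) i t + 1 - tp t := by
  have hsm : ∀ w : W, sm w = w i + w (i + 1) + w (i + 2) := by
    intro w
    unfold sm
    fin_cases i <;> simp <;> ring
  have h1 := line_card (-ep t) (sgn2 t) i (ep t * (M B (ep t) i t + 1)) (1 - tp t)
    (M B (-ep t) (i + 1) t) (M B (-ep t) (i + 2) t) T
    (by
      intro w hw
      obtain ⟨h2, h3⟩ := hT w hw
      refine ⟨?_, C_sm t w h2, C_N h t w h2 _, C_N h t w h2 _⟩
      rcases sgn1 t with e | e <;> rw [e] at h3 ⊢ <;> omega)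
  obtain ⟨v, hv, h4⟩ := M_att h (ep t) i t
  have h5 := h.sm01 t v hv
  have h6 := M_le h (-ep t) (sgn2 t) (i + 1) t v hv
  have h7 := M_le h (-ep t) (sgn2 t) (i + 2) t v hv
  rw [hsm] at h5
  rcases ep_cases t with ⟨e1, e2⟩ | ⟨e1, e2⟩ <;> rw [e1] at h1 h4 h6 h7 ⊢ <;>
    rw [e2] at h1 ⊢ <;>
  · have h8 := h1 (by omega)
    omega

/-- bound for the candidates in a direction of `TQ` -/
theorem Q_bound (h : Game B P) (t : ℕ) (k : Fin 3) (c1 c2 : ℤ) (hc1 : 0 ≤ c1) (hc2 : 0 ≤ c2)
    (T : Finset W)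
    (hT : ∀ w ∈ T, w ∈ C B t ∧ -ep t * w k = M B (-ep t) k t ∧
      ep t * w (k + 1) ≤ M B (ep t) (k + 1) t + c1 ∧
      ep t * w (k + 2) ≤ M B (ep t) (k + 2) t + c2) :
    (T.card : ℤ) ≤ M B (ep t) (k + 1) t + M B (ep t) (k + 2) t - M B (-ep t) k t + tp t
      + c1 + c2 := by
  have hsm : ∀ w : W, sm w = w k + w (k + 1) + w (k + 2) := by
    intro w
    unfold sm
    fin_cases k <;> simp <;> ring
  have h1 := line_card (ep t) (sgn1 t) k (-ep t * (M B (-ep t) k t)) (1 - tp t)
    (M B (ep t) (k + 1) t + c1) (M B (ep t) (k + 2) t + c2) T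
    (by
      intro w hw
      obtain ⟨h2, h3, h4, h5⟩ := hT w hw
      refine ⟨?_, C_sm t w h2, h4, h5⟩
      rcases sgn1 t with e | e <;> rw [e] at h3 ⊢ <;> omega)
  obtain ⟨v, hv, h4⟩ := M_att h (-ep t) k t
  have h5 := h.sm01 t v hv
  have h6 := M_le h (ep t) (sgn1 t) (k + 1) t v hv
  have h7 := M_le h (ep t) (sgn1 t) (k + 2) t v hv
  rw [hsm] at h5
  rcases ep_cases t with ⟨e1, e2⟩ | ⟨e1, e2⟩ <;> rw [e1] at h1 h4 h6 h7 ⊢ <;>
    rw [e2] at h1 ⊢ <;>
  · have h8 := h1 (by omega)
    omega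

end HexRate
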