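import Pool.Agent.HexRate.Key

set_option autoImplicit false

/-!
Counting the failures of the six directions: with at most `5 t / 6` protected vertices after `t`
rounds at most one direction is blocked at any time and the sum of the heights grows linearly.
-/

namespace HexRate

variable {B P : ℕ → Finset W}

/-- direction `i` does not grow in the step `t → t + 1` -/
def stuck (B : ℕ → Finset W) (i : Fin 3) (t : ℕ) : Prop := M B (ep t) i (t + 1) = M B (ep t) i t

open Classical in
/-- number of directions that do not grow in the step `t → t + 1` -/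
noncomputable def nf (B : ℕ → Finset W) (t : ℕ) : ℕ :=
  (Finset.univ.filter (fun i : Fin 3 => stuck B i t)).card

theorem fresh_succ (k : Fin 3) (t : ℕ) : ¬ fresh B k (t + 1) ↔ stuck B k t := by
  unfold stuck
  have : fresh B k (t + 1) ↔ M B (ep t) k (t + 1) = M B (ep t) k t + 1 := Iff.rfl
  rw [this]
  rcases M_succ_cases (B := B) (ep t) k t with ⟨h, -⟩ | ⟨h, -⟩ <;> omega

/-- the sum of the heights grows by the number of directions that grow -/
theorem SM_succ (h : Game B P) (t : ℕ) : SM B (t + 1) = SM B t + 3 - (nf B t : ℤ) := by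
  classical
  unfold SM nf
  rw [Finset.card_filter]
  push_cast
  have h1 : ∀ i : Fin 3, M B (ep (t + 1)) i (t + 1) + M B (-ep (t + 1)) i (t + 1) =
      M B (ep t) i t + M B (-ep t) i t + 1 - (if stuck B i t then 1 else 0) := by
    intro i
    rw [ep_succ, neg_neg, M_neg h]
    rcases M_succ_cases (B := B) (ep t) i t with ⟨h4, -⟩ | ⟨h4, -⟩
    · rw [if_neg (by unfold stuck; omega), h4]
      ring
    · rw [if_pos (by unfold stuck; omega), h4]
      ring
  rw [Finset.sum_congr rfl (fun i _ => h1 i)]
  rw [Finset.sum_sub_distrib, Finset.sum_add_distrib (f := fun i => M B (ep t) i t + M B (-ep t) i t)]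
  simp

theorem SM_zero : SM B 0 = 0 := by
  unfold SM
  simp [M]

/-- two blocked directions need many protected vertices -/
theorem two_blocked (h : Game B P) (t : ℕ) (hn : 2 ≤ nf B t + nf B (t + 1)) :
    SM B (t + 1) + 3 ≤ 3 * ((P (t + 2)).card : ℤ) := by
  classical
  by_cases h2 : 2 ≤ nf B (t + 1)
  · unfold nf at h2
    obtain ⟨i, hi, j, hj, hij⟩ := Finset.one_lt_card.1 h2
    rw [Finset.mem_filter] at hi hj
    exact Key_LL h (t + 1) i j hij hi.2 hj.2
  · by_cases h3 : 2 ≤ nf B t
    · unfold nf at h3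
      obtain ⟨i, hi, j, hj, hij⟩ := Finset.one_lt_card.1 h3
      rw [Finset.mem_filter] at hi hj
      exact Key_QQ h (t + 1) i j hij ((fresh_succ i t).2 hi.2) ((fresh_succ j t).2 hj.2)
    · have h4 : 0 < nf B t := by omega
      have h5 : 0 < nf B (t + 1) := by omega
      unfold nf at h4 h5
      obtain ⟨k, hk⟩ := Finset.card_pos.1 h4
      obtain ⟨i, hi⟩ := Finset.card_pos.1 h5
      rw [Finset.mem_filter] at hk hi
      by_cases hik : i = k
      · subst hik
        exact Key_LQ_same h (t + 1) i hi.2 ((fresh_succ i t).2 hk.2)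
      · exact Key_LQ h (t + 1) i k hik hi.2 ((fresh_succ k t).2 hk.2)

/-- in the first step all three directions grow if nothing is protected -/
theorem nf_zero (h : Game B P) (hP : (P 1).card = 0) : nf B 0 = 0 := by
  classical
  unfold nf
  rw [Finset.card_eq_zero, Finset.filter_eq_empty_iff]
  intro i _ hs
  unfold stuck at hs
  have hPe : P 1 = ∅ := Finset.card_eq_zero.1 hP
  have e0 : ep 0 = 1 := by simp [ep]
  have hB : nb 1 i 0 ∈ B (0 + 1) := by
    rw [h.step]
    right
    refine ⟨by rw [zero_add, hPe]; simp, 0, by rw [h.B0]; simp, by simp [sm, tp], i, by rw [e0]⟩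
  have := M_le h (ep 0) (sgn1 0) i (0 + 1) _ hB
  rw [hs, e0, nb_same] at this
  simp [M] at this

/-- the failures are rare -/
theorem few (h : Game B P) (hP : ∀ t, 6 * (P t).card ≤ 5 * t) (t : ℕ) :
    5 * ((t : ℤ) + 1) ≤ 2 * SM B (t + 1) ∧
      (nf B t = 0 → 5 * ((t : ℤ) + 1) + 1 ≤ 2 * SM B (t + 1)) := by
  induction t with
  | zero =>
    have h1 : (P 1).card = 0 := by
      have := hP 1
      omega
    have h2 := SM_succ h 0
    rw [nf_zero h h1, SM_zero] at h2
    push_cast at h2 ⊢
    constructor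
    · omega
    · intro _; omega
  | succ t ih =>
    have h2 := SM_succ h (t + 1)
    have h3 := hP (t + 2)
    have h4 : nf B t + nf B (t + 1) ≤ 1 := by
      by_contra hcon
      have h5 := two_blocked h t (by omega)
      omega
    push_cast
    constructor
    · by_cases h6 : nf B (t + 1) = 0
      · omega
      · have h7 : nf B t = 0 := by omega
        have h8 : nf B (t + 1) = 1 := by omega
        have h9 := ih.2 h7
        omega
    · intro h6
      omega

/-- with at most `5 t / 6` protected vertices after `t` rounds the burning set is unbounded -/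
theorem unbounded (h : Game B P) (hP : ∀ t, 6 * (P t).card ≤ 5 * t) (F : Finset W) :
    ∃ t, ¬ B t ⊆ F := by
  classical
  by_contra hcon
  push Not at hcon
  obtain ⟨K, hK⟩ : ∃ K : ℤ, ∀ v ∈ F, ∀ i : Fin 3, v i ≤ K ∧ - v i ≤ K := by
    refine ⟨∑ v ∈ F, ∑ i : Fin 3, |v i|, ?_⟩
    intro v hv i
    have h1 : |v i| ≤ ∑ i : Fin 3, |v i| :=
      Finset.single_le_sum (f := fun i => |v i|) (fun j _ => abs_nonneg _) (Finset.mem_univ i)
    have h2 : ∑ i : Fin 3, |v i| ≤ ∑ v ∈ F, ∑ i : Fin 3, |v i| :=
      Finset.single_le_sum (f := fun v : W => ∑ i : Fin 3, |v i|)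
        (fun w _ => Finset.sum_nonneg (fun j _ => abs_nonneg _)) hv
    have h3 := abs_le.1 (le_refl |v i|)
    constructor <;> omega
  have hM : ∀ t σ i, (σ = 1 ∨ σ = -1) → M B σ i t ≤ K := by
    intro t σ i hσ
    obtain ⟨v, hv, h1⟩ := M_att h σ i t
    have h2 := hK v (hcon t hv) i
    rcases hσ with rfl | rfl <;> omega
  have hS : ∀ t, SM B t ≤ 6 * K := by
    intro t
    unfold SM
    rw [Fin.sum_univ_three]
    have a0 := hM t (ep t) 0 (sgn1 t)
    have a1 := hM t (ep t) 1 (sgn1 t)
    have a2 := hM t (ep t) 2 (sgn1 t)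
    have b0 := hM t (-ep t) 0 (sgn2 t)
    have b1 := hM t (-ep t) 1 (sgn2 t)
    have b2 := hM t (-ep t) 2 (sgn2 t)
    omega
  have h1 := (few h hP (3 * K).toNat).1
  have h2 := hS ((3 * K).toNat + 1)
  have h3 : 3 * K ≤ ((3 * K).toNat : ℤ) := Int.self_le_toNat _
  have h4 := Int.toNat_of_nonneg (a := 3 * K)
  by_cases h5 : 0 ≤ 3 * K
  · have := h4 h5
    omega
  · omega

end HexRate
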