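import Pool.Agent.HexRate.Basic

set_option autoImplicit false

/-!
The growth theorem: protected neighbours of the fire together with the candidates in extreme
position are at least as many as the sum of the corresponding heights.
-/

namespace HexRate

variable {B P : ℕ → Finset W}

open Classical in
/-- the vertices outside `B t` that burn at time `t + 1` unless protected -/
noncomputable def C (B : ℕ → Finset W) (t : ℕ) : Finset W :=
  ((B t).biUnion (fun u => Finset.univ.image (fun j => nb (ep t) j u))).filter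
    (fun w => w ∉ B t ∧ ∃ u ∈ B t, sm u = tp t ∧ ∃ j, w = nb (ep t) j u)

theorem mem_C (t : ℕ) (w : W) :
    w ∈ C B t ↔ w ∉ B t ∧ ∃ u ∈ B t, sm u = tp t ∧ ∃ j, w = nb (ep t) j u := by
  unfold C
  rw [Finset.mem_filter]
  constructor
  · exact fun h => h.2
  · intro h
    refine ⟨?_, h⟩
    obtain ⟨-, u, hu, -, j, rfl⟩ := h
    rw [Finset.mem_biUnion]
    exact ⟨u, hu, Finset.mem_image.2 ⟨j, Finset.mem_univ j, rfl⟩⟩

/-- direction `k` grew in the last step -/
def fresh (B : ℕ → Finset W) (k : Fin 3) : ℕ → Prop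
  | 0 => True
  | (t + 1) => M B (ep t) k (t + 1) = M B (ep t) k t + 1

open Classical in
/-- the candidates in extreme position for one of the directions in `TL`, `TQ` -/
noncomputable def X (B : ℕ → Finset W) (TL TQ : Finset (Fin 3)) (t : ℕ) : Finset W :=
  (C B t).filter (fun w => (∃ i ∈ TL, ep t * w i = M B (ep t) i t + 1) ∨
    (∃ k ∈ TQ, fresh B k t ∧ -ep t * w k = M B (-ep t) k t))

open Classical in
/-- the protected vertices adjacent to the fire -/
noncomputable def R (B P : ℕ → Finset W) (t : ℕ) : Finset W :=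
  (P t).filter (fun w => ∃ u ∈ B t, ∃ i, w = nb 1 i u ∨ w = nb (-1) i u)

open Classical in
/-- the set whose size is estimated -/
noncomputable def S (B P : ℕ → Finset W) (TL TQ : Finset (Fin 3)) (t : ℕ) : Finset W :=
  R B P t ∪ X B TL TQ t

theorem sgn1 (t : ℕ) : ep t = 1 ∨ ep t = -1 := by
  rcases ep_cases t with ⟨e1, -⟩ | ⟨e1, -⟩ <;> simp [e1]

theorem sgn2 (t : ℕ) : -ep t = 1 ∨ -ep t = -1 := by
  rcases ep_cases t with ⟨e1, -⟩ | ⟨e1, -⟩ <;> simp [e1]

theorem mem_succ (h : Game B P) (t : ℕ) (w : W) :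
    w ∈ B (t + 1) ↔ w ∈ B t ∨ (w ∈ C B t ∧ w ∉ P (t + 1)) := by
  rw [h.step, mem_C]
  by_cases hw : w ∈ B t
  · simp [hw]
  · simp only [hw, false_or, not_false_eq_true, true_and]
    tauto

theorem C_sm (t : ℕ) (w : W) (hw : w ∈ C B t) : sm w = 1 - tp t := by
  rw [mem_C] at hw
  obtain ⟨-, u, hu, h1, j, rfl⟩ := hw
  rw [sm_nb, h1]
  rcases ep_cases t with ⟨e1, e2⟩ | ⟨e1, e2⟩ <;> rw [e1, e2] <;> rfl

theorem C_N (h : Game B P) (t : ℕ) (w : W) (hw : w ∈ C B t) (i : Fin 3) :
    -ep t * w i ≤ M B (-ep t) i t := by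
  rw [mem_C] at hw
  obtain ⟨-, u, hu, h1, j, rfl⟩ := hw
  have h2 := M_le h (-ep t) (sgn2 t) i t u hu
  by_cases hj : i = j
  · subst hj
    rw [nb_same]
    rcases ep_cases t with ⟨e1, -⟩ | ⟨e1, -⟩ <;> rw [e1] at h2 ⊢ <;> omega
  · rw [nb_ne _ _ _ _ hj]
    exact h2

theorem C_L (h : Game B P) (t : ℕ) (w : W) (hw : w ∈ C B t) :
    ∃ j, (ep t * w j ≤ M B (ep t) j t + 1) ∧ ∀ i, i ≠ j → ep t * w i ≤ M B (ep t) i t := by
  rw [mem_C] at hw
  obtain ⟨-, u, hu, h1, j, rfl⟩ := hw
  refine ⟨j, ?_, ?_⟩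
  · have h2 := M_le h (ep t) (sgn1 t) j t u hu
    rw [nb_same]
    rcases ep_cases t with ⟨e1, -⟩ | ⟨e1, -⟩ <;> rw [e1] at h2 ⊢ <;> omega
  · intro i hij
    rw [nb_ne _ _ _ _ hij]
    exact M_le h (ep t) (sgn1 t) i t u hu

theorem C_L' (h : Game B P) (t : ℕ) (w : W) (hw : w ∈ C B t) (i : Fin 3) :
    ep t * w i ≤ M B (ep t) i t + 1 := by
  obtain ⟨j, h1, h2⟩ := C_L h t w hw
  by_cases hij : i = j
  · rw [hij]; exact h1
  · have := h2 i hij
    omega

theorem nb_inj (ε : ℤ) (i : Fin 3) : Function.Injective (nb ε i) := by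
  intro v w h
  funext j
  by_cases hj : j = i
  · subst hj
    have := congrFun h j
    rw [nb_same, nb_same] at this
    omega
  · have := congrFun h j
    rw [nb_ne _ _ _ _ hj, nb_ne _ _ _ _ hj] at this
    exact this

/-- a nonempty set has at least one more child than members in each line -/
theorem line_grow (ε : ℤ) (hε : ε = 1 ∨ ε = -1) (i : Fin 3) (U : Finset W) (hU : U.Nonempty) :
    U.card + 1 ≤ (U.image (nb (-ε) (i + 1)) ∪ U.image (nb (-ε) (i + 2))).card := by
  obtain ⟨v, hv, hmax⟩ := U.exists_max_image (fun v => ε * v (i + 1)) hU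
  have h1 : nb (-ε) (i + 2) v ∉ U.image (nb (-ε) (i + 1)) := by
    intro h2
    rw [Finset.mem_image] at h2
    obtain ⟨u, hu, h3⟩ := h2
    have h4 := congrFun h3 (i + 1)
    rw [nb_same, nb_ne _ _ _ _ (by intro h5; fin_cases i <;> simp at h5)] at h4
    have h5 := hmax u hu
    rcases hε with rfl | rfl <;> omega
  calc U.card + 1 = (U.image (nb (-ε) (i + 1))).card + 1 := by
        rw [Finset.card_image_of_injective _ (nb_inj _ _)]
    _ = (insert (nb (-ε) (i + 2) v) (U.image (nb (-ε) (i + 1)))).card := by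
        rw [Finset.card_insert_of_notMem h1]
    _ ≤ _ := by
        apply Finset.card_le_card
        intro w hw
        rw [Finset.mem_insert] at hw
        rw [Finset.mem_union]
        rcases hw with rfl | hw
        · right; exact Finset.mem_image_of_mem _ hv
        · left; exact hw

end HexRate
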