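import Pool.Agent.HexRate.Bound

set_option autoImplicit false

/-!
If two directions are blocked then many vertices are protected.
-/

namespace HexRate

variable {B P : ℕ → Finset W}

/-- the general upper bound -/
theorem FB (h : Game B P) (t : ℕ) (TL TQ DL DQ : Finset (Fin 3))
    (hDL : ∀ i ∈ DL, M B (ep t) i (t + 1) = M B (ep t) i t)
    (hDQ : ∀ k ∈ DQ, ¬ fresh B k t) :
    (∑ i : Fin 3, if i ∈ TL then M B (ep t) i t else 0) +
      (∑ k : Fin 3, if k ∈ TQ then M B (-ep t) k t else 0) + (cs t TL TQ : ℤ) ≤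
    ((P (t + 1)).card : ℤ) +
      (∑ i : Fin 3, if i ∈ TL ∧ i ∉ DL then
        M B (-ep t) (i + 1) t + M B (-ep t) (i + 2) t - M B (ep t) i t + 1 - tp t else 0) +
      (∑ k : Fin 3, if k ∈ TQ ∧ k ∉ DQ then
        M B (ep t) (k + 1) t + M B (ep t) (k + 2) t - M B (-ep t) k t + tp t
          + (if k + 1 ∈ TL then 0 else 1) + (if k + 2 ∈ TL then 0 else 1) else 0) := by
  classical
  have hG := G h t TL TQ
  rw [Finset.sum_ite_mem, Finset.sum_ite_mem, Finset.univ_inter, Finset.univ_inter]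
  refine le_trans hG ?_
  set FL : Fin 3 → Finset W := fun i =>
    if i ∈ TL ∧ i ∉ DL then (C B t).filter (fun w => ep t * w i = M B (ep t) i t + 1) else ∅
    with hFL
  set FQ : Fin 3 → Finset W := fun k =>
    if k ∈ TQ ∧ k ∉ DQ then (C B t).filter (fun w => -ep t * w k = M B (-ep t) k t ∧
      ∀ i ∈ TL, ep t * w i ≤ M B (ep t) i t) else ∅
    with hFQ
  have hsub : S B P TL TQ t ⊆ P (t + 1) ∪ Finset.univ.biUnion FL ∪ Finset.univ.biUnion FQ := by
    intro w hw
    rw [Finset.mem_union, Finset.mem_union, Finset.mem_biUnion, Finset.mem_biUnion]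
    unfold S at hw
    rw [Finset.mem_union] at hw
    rcases hw with hw | hw
    · left; left
      unfold R at hw
      rw [Finset.mem_filter] at hw
      exact h.mono t hw.1
    · unfold X at hw
      rw [Finset.mem_filter] at hw
      obtain ⟨hwC, hw⟩ := hw
      by_cases h1 : ∃ i ∈ TL, ep t * w i = M B (ep t) i t + 1
      · obtain ⟨i, hi, h2⟩ := h1
        left
        by_cases hiD : i ∈ DL
        · left
          by_contra hwP
          have hwB : w ∈ B (t + 1) := by
            rw [mem_succ h]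
            right; exact ⟨hwC, hwP⟩
          have := M_le h (ep t) (sgn1 t) i (t + 1) w hwB
          rw [hDL i hiD] at this
          omega
        · right
          refine ⟨i, Finset.mem_univ i, ?_⟩
          simp only [hFL]
          rw [if_pos ⟨hi, hiD⟩, Finset.mem_filter]
          exact ⟨hwC, h2⟩
      · rcases hw with hw | ⟨k, hk, hf, h2⟩
        · exact absurd hw h1
        · right
          refine ⟨k, Finset.mem_univ k, ?_⟩
          simp only [hFQ]
          rw [if_pos ⟨hk, fun h3 => hDQ k h3 hf⟩, Finset.mem_filter]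
          refine ⟨hwC, h2, ?_⟩
          intro i hi
          have h3 := C_L' h t w hwC i
          have h4 : ep t * w i ≠ M B (ep t) i t + 1 := fun h5 => h1 ⟨i, hi, h5⟩
          omega
  have hcard : (S B P TL TQ t).card ≤ (P (t + 1)).card + ∑ i, (FL i).card + ∑ k, (FQ k).card := by
    calc _ ≤ _ := Finset.card_le_card hsub
      _ ≤ (P (t + 1) ∪ Finset.univ.biUnion FL).card + (Finset.univ.biUnion FQ).card :=
        Finset.card_union_le _ _
      _ ≤ (P (t + 1)).card + (Finset.univ.biUnion FL).card + (Finset.univ.biUnion FQ).card := by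
        have := Finset.card_union_le (P (t + 1)) (Finset.univ.biUnion FL)
        omega
      _ ≤ _ := by
        have h1 := Finset.card_biUnion_le (s := Finset.univ) (t := FL)
        have h2 := Finset.card_biUnion_le (s := Finset.univ) (t := FQ)
        omega
  have hL : ∀ i, ((FL i).card : ℤ) ≤ if i ∈ TL ∧ i ∉ DL then
        M B (-ep t) (i + 1) t + M B (-ep t) (i + 2) t - M B (ep t) i t + 1 - tp t else 0 := by
    intro i
    simp only [hFL]
    split_ifs with h1
    · apply L_bound h t i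
      intro w hw
      rw [Finset.mem_filter] at hw
      exact hw
    · simp
  have hQ : ∀ k, ((FQ k).card : ℤ) ≤ if k ∈ TQ ∧ k ∉ DQ then
        M B (ep t) (k + 1) t + M B (ep t) (k + 2) t - M B (-ep t) k t + tp t
          + (if k + 1 ∈ TL then 0 else 1) + (if k + 2 ∈ TL then 0 else 1) else 0 := by
    intro k
    simp only [hFQ]
    by_cases h1 : k ∈ TQ ∧ k ∉ DQ
    · rw [if_pos h1, if_pos h1]
      apply Q_bound h t k
      · split_ifs <;> omega
      · split_ifs <;> omega
      intro w hw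
      rw [Finset.mem_filter] at hw
      obtain ⟨h2, h3, h4⟩ := hw
      refine ⟨h2, h3, ?_, ?_⟩
      · split_ifs with h5
        · have := h4 _ h5
          omega
        · exact C_L' h t w h2 _
      · split_ifs with h5
        · have := h4 _ h5
          omega
        · exact C_L' h t w h2 _
    · rw [if_neg h1, if_neg h1]
      simp
  have hL' := Finset.sum_le_sum (s := Finset.univ) (fun i (_ : i ∈ Finset.univ) => hL i)
  have hQ' := Finset.sum_le_sum (s := Finset.univ) (fun i (_ : i ∈ Finset.univ) => hQ i)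
  have hc : ((S B P TL TQ t).card : ℤ) ≤ ((P (t + 1)).card : ℤ) + ∑ i, ((FL i).card : ℤ) +
      ∑ k, ((FQ k).card : ℤ) := by exact_mod_cast hcard
  linarith

/-- the sum of the six heights -/
def SM (B : ℕ → Finset W) (t : ℕ) : ℤ := ∑ i : Fin 3, (M B (ep t) i t + M B (-ep t) i t)

theorem tp01 (t : ℕ) : 0 ≤ tp t ∧ tp t ≤ 1 := by
  rcases ep_cases t with ⟨-, e2⟩ | ⟨-, e2⟩ <;> rw [e2] <;> simp

theorem cs_univ (t : ℕ) : cs t Finset.univ Finset.univ = 3 := by
  unfold cs; split_ifs <;> decide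

theorem cst_pair : ∀ i k : Fin 3, i ≠ k → cst {i, k} {i, k} = 3 := by decide

theorem Key_LQ (h : Game B P) (t : ℕ) (i k : Fin 3) (hik : i ≠ k)
    (hL : M B (ep t) i (t + 1) = M B (ep t) i t) (hQ : ¬ fresh B k t) :
    SM B t + 3 ≤ 3 * ((P (t + 1)).card : ℤ) := by
  obtain ⟨p0, p1⟩ := tp01 t
  have f1 := FB h t Finset.univ Finset.univ {i} {k} (by simp [hL]) (by simp [hQ])
  have f2 := FB h t {i, k} {i, k} {i} {k} (by simp [hL]) (by simp [hQ])
  have c2 : cs t {i, k} {i, k} = 3 := by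
    unfold cs; split_ifs <;> exact cst_pair i k hik
  rw [cs_univ] at f1
  rw [c2] at f2
  unfold SM
  clear hL hQ c2
  fin_cases i <;> fin_cases k <;> simp [Fin.sum_univ_three] at hik f1 f2 ⊢ <;> omega

theorem cst_same : ∀ i : Fin 3, cst {i} {i} = 3 := by decide

theorem cst_ux : ∀ i k : Fin 3, i ≠ k → cst Finset.univ {i, k} = 3 := by decide

theorem cst_xu : ∀ i k : Fin 3, i ≠ k → cst {i, k} Finset.univ = 3 := by decide

theorem cst_ue : cst Finset.univ ∅ = 3 := by decide

theorem cst_eu : cst ∅ Finset.univ = 3 := by decide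

theorem cst_pe : ∀ i k : Fin 3, i ≠ k → cst {i, k} ∅ = 2 := by decide

theorem cst_ep : ∀ i k : Fin 3, i ≠ k → cst ∅ {i, k} = 3 := by decide

theorem Key_LQ_same (h : Game B P) (t : ℕ) (i : Fin 3)
    (hL : M B (ep t) i (t + 1) = M B (ep t) i t) (hQ : ¬ fresh B i t) :
    SM B t + 3 ≤ 3 * ((P (t + 1)).card : ℤ) := by
  obtain ⟨p0, p1⟩ := tp01 t
  have f1 := FB h t Finset.univ Finset.univ {i} {i} (by simp [hL]) (by simp [hQ])
  have f2 := FB h t {i} {i} {i} {i} (by simp [hL]) (by simp [hQ])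
  have c2 : cs t {i} {i} = 3 := by
    unfold cs; split_ifs <;> exact cst_same i
  rw [cs_univ] at f1
  rw [c2] at f2
  unfold SM
  clear hL hQ c2
  fin_cases i <;> simp [Fin.sum_univ_three] at f1 f2 ⊢ <;> omega

theorem Key_LL (h : Game B P) (t : ℕ) (i j : Fin 3) (hij : i ≠ j)
    (hL : M B (ep t) i (t + 1) = M B (ep t) i t) (hL' : M B (ep t) j (t + 1) = M B (ep t) j t) :
    SM B t + 3 ≤ 3 * ((P (t + 1)).card : ℤ) := by
  obtain ⟨p0, p1⟩ := tp01 t
  have f1 := FB h t Finset.univ Finset.univ {i, j} ∅ (by simp [hL, hL']) (by simp)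
  have f2 := FB h t Finset.univ {i, j} {i, j} ∅ (by simp [hL, hL']) (by simp)
  have f3 := FB h t Finset.univ ∅ {i, j} ∅ (by simp [hL, hL']) (by simp)
  have f4 := FB h t {i, j} ∅ {i, j} ∅ (by simp [hL, hL']) (by simp)
  have c2 : cs t Finset.univ {i, j} = 3 := by
    unfold cs; split_ifs
    · exact cst_ux i j hij
    · exact cst_xu i j hij
  have c3 : cs t Finset.univ ∅ = 3 := by
    unfold cs; split_ifs
    · exact cst_ue
    · exact cst_eu
  have c4 : 2 ≤ cs t {i, j} ∅ := by
    unfold cs; split_ifs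
    · rw [cst_pe i j hij]
    · rw [cst_ep i j hij]; omega
  have c4' : (2 : ℤ) ≤ (cs t {i, j} ∅ : ℤ) := by exact_mod_cast c4
  rw [cs_univ] at f1
  rw [c2] at f2
  rw [c3] at f3
  generalize (cs t {i, j} ∅ : ℤ) = q at c4' f4
  unfold SM
  clear hL hL' c2 c3 c4
  fin_cases i <;> fin_cases j <;> simp [Fin.sum_univ_three] at hij f1 f2 f3 f4 ⊢ <;> omega

theorem Key_QQ (h : Game B P) (t : ℕ) (i j : Fin 3) (hij : i ≠ j)
    (hQ : ¬ fresh B i t) (hQ' : ¬ fresh B j t) :
    SM B t + 3 ≤ 3 * ((P (t + 1)).card : ℤ) := by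
  obtain ⟨p0, p1⟩ := tp01 t
  have f1 := FB h t Finset.univ Finset.univ ∅ {i, j} (by simp) (by simp [hQ, hQ'])
  have f2 := FB h t {i, j} Finset.univ ∅ {i, j} (by simp) (by simp [hQ, hQ'])
  have f3 := FB h t ∅ Finset.univ ∅ {i, j} (by simp) (by simp [hQ, hQ'])
  have f4 := FB h t ∅ {i, j} ∅ {i, j} (by simp) (by simp [hQ, hQ'])
  have c2 : cs t {i, j} Finset.univ = 3 := by
    unfold cs; split_ifs
    · exact cst_xu i j hij
    · exact cst_ux i j hij
  have c3 : cs t ∅ Finset.univ = 3 := by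
    unfold cs; split_ifs
    · exact cst_eu
    · exact cst_ue
  have c4 : 2 ≤ cs t ∅ {i, j} := by
    unfold cs; split_ifs
    · rw [cst_ep i j hij]; omega
    · rw [cst_pe i j hij]
  have c4' : (2 : ℤ) ≤ (cs t ∅ {i, j} : ℤ) := by exact_mod_cast c4
  rw [cs_univ] at f1
  rw [c2] at f2
  rw [c3] at f3
  generalize (cs t ∅ {i, j} : ℤ) = q at c4' f4
  unfold SM
  clear hQ hQ' c2 c3 c4
  fin_cases i <;> fin_cases j <;> simp [Fin.sum_univ_three] at hij f1 f2 f3 f4 ⊢ <;> omega

end HexRate
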