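import Pool.Agent.HexRate.Grow

set_option autoImplicit false

/-!
The induction step of the growth theorem.
-/

namespace HexRate

variable {B P : ℕ → Finset W}

theorem desc_le (ε : ℤ) (hε : ε = 1 ∨ ε = -1) (j i : Fin 3) (v : W) :
    ε * nb (-ε) j v i ≤ ε * v i := by
  by_cases hj : i = j
  · subst hj
    rw [nb_same]
    rcases hε with rfl | rfl <;> omega
  · rw [nb_ne _ _ _ _ hj]

/-- the burning set grows by candidates only -/
theorem not_mem_succ (h : Game B P) (t : ℕ) (w : W) (h1 : sm w = tp t) (h2 : w ∉ B t) :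
    w ∉ B (t + 1) := by
  intro h3
  rw [mem_succ h] at h3
  rcases h3 with h3 | ⟨h3, -⟩
  · exact h2 h3
  · have := C_sm t w h3
    rcases ep_cases t with ⟨-, e2⟩ | ⟨-, e2⟩ <;> omega

theorem G_step (h : Game B P) (t : ℕ) (TL TQ : Finset (Fin 3)) :
    (S B P TL TQ t).card +
      (TL.filter (fun i => M B (ep t) i (t + 1) = M B (ep t) i t + 1)).card
      ≤ (S B P TQ TL (t + 1)).card := by
  classical
  have hs1 := sgn1 t
  set U : Finset W := (X B TL TQ t).filter (fun w => w ∉ P (t + 1)) with hU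
  set K : Finset W := (S B P TL TQ t).filter (fun w => w ∈ P (t + 1)) with hK
  have hUC : ∀ w ∈ U, w ∈ C B t := by
    intro w hw
    rw [hU, Finset.mem_filter] at hw
    unfold X at hw
    rw [Finset.mem_filter] at hw
    exact hw.1.1
  have hUP : ∀ w ∈ U, w ∉ P (t + 1) := by
    intro w hw
    rw [hU, Finset.mem_filter] at hw
    exact hw.2
  have hUB : ∀ w ∈ U, w ∈ B (t + 1) := by
    intro w hw
    rw [mem_succ h]
    right
    exact ⟨hUC w hw, hUP w hw⟩
  set UL : Fin 3 → Finset W := fun i => U.filter (fun w => ep t * w i = M B (ep t) i t + 1) with hUL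
  set U0 : Finset W := U.filter (fun w => ∀ i ∈ TL, ep t * w i ≠ M B (ep t) i t + 1) with hU0
  have hULm : ∀ i, ∀ v, v ∈ UL i ↔ v ∈ U ∧ ep t * v i = M B (ep t) i t + 1 := by
    intro i v
    simp only [hUL, Finset.mem_filter]
  have hU0m : ∀ v, v ∈ U0 ↔ v ∈ U ∧ ∀ i ∈ TL, ep t * v i ≠ M B (ep t) i t + 1 := by
    intro v
    rw [hU0, Finset.mem_filter]
  have hk : ∀ v, ∃ k, v ∈ U0 → (k ∈ TQ ∧ -ep t * v k = M B (-ep t) k t) := by
    intro v
    by_cases hv : v ∈ U0
    · have hv' := (hU0m v).1 hv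
      have hv1 := hv'.1
      rw [hU, Finset.mem_filter] at hv1
      unfold X at hv1
      rw [Finset.mem_filter] at hv1
      rcases hv1.1.2 with ⟨i, hi, h2⟩ | ⟨k, hk, -, h2⟩
      · exact absurd h2 (hv'.2 i hi)
      · exact ⟨k, fun _ => ⟨hk, h2⟩⟩
    · exact ⟨0, fun h => absurd h hv⟩
  choose κ hκ using hk
  set Y : Fin 3 → Finset W := fun i => (UL i).image (nb (-ep t) (i + 1)) ∪
    (UL i).image (nb (-ep t) (i + 2)) with hY
  set Z : Finset W := U0.image (fun v => nb (-ep t) (κ v) v) with hZ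
  have hYm : ∀ i, ∀ w ∈ Y i, ∃ v ∈ U, ep t * v i = M B (ep t) i t + 1 ∧ ∃ j, i ≠ j ∧
      w = nb (-ep t) j v := by
    intro i w hw
    simp only [hY, Finset.mem_union, Finset.mem_image] at hw
    rcases hw with ⟨v, hv, rfl⟩ | ⟨v, hv, rfl⟩
    · rw [hULm] at hv
      exact ⟨v, hv.1, hv.2, i + 1, by intro h5; fin_cases i <;> simp at h5, rfl⟩
    · rw [hULm] at hv
      exact ⟨v, hv.1, hv.2, i + 2, by intro h5; fin_cases i <;> simp at h5, rfl⟩
  have hYi : ∀ i, ∀ w ∈ Y i, ep t * w i = M B (ep t) i t + 1 := by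
    intro i w hw
    obtain ⟨v, -, h2, j, hj, rfl⟩ := hYm i w hw
    rw [nb_ne _ _ _ _ hj]
    exact h2
  have hsmU : ∀ v ∈ U, ∀ j, sm (nb (-ep t) j v) = tp t := by
    intro v hv j
    rw [sm_nb, C_sm t v (hUC v hv)]
    rcases ep_cases t with ⟨e1, e2⟩ | ⟨e1, e2⟩ <;> rw [e1, e2] <;> rfl
  have hCnext : ∀ v ∈ U, ∀ j, nb (-ep t) j v ∉ B t → nb (-ep t) j v ∈ C B (t + 1) := by
    intro v hv j hB
    rw [mem_C]
    refine ⟨not_mem_succ h t _ (hsmU v hv j) hB, v, hUB v hv, ?_, j, ?_⟩
    · rw [C_sm t v (hUC v hv), tp_succ]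
    · rw [ep_succ]
  have hYX : ∀ i ∈ TL, ∀ w ∈ Y i, w ∈ X B TQ TL (t + 1) := by
    intro i hi w hw
    have hwi := hYi i w hw
    obtain ⟨v, hv, h2, j, hj, h3⟩ := hYm i w hw
    have hMi : M B (ep t) i (t + 1) = M B (ep t) i t + 1 := by
      rcases M_succ_cases (B := B) (ep t) i t with ⟨h4, -⟩ | ⟨-, h4⟩
      · exact h4
      · exact absurd h2 (h4 v (hUB v hv))
    unfold X
    rw [Finset.mem_filter]
    constructor
    · rw [h3]
      apply hCnext v hv
      intro hB
      rw [← h3] at hB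
      have := M_le h (ep t) (sgn1 t) i t w hB
      omega
    · right
      refine ⟨i, hi, hMi, ?_⟩
      rw [ep_succ, neg_neg, hMi]
      exact hwi
  have hZk : ∀ v ∈ U0, -ep t * nb (-ep t) (κ v) v (κ v) = M B (-ep t) (κ v) t + 1 := by
    intro v hv
    have h2 := (hκ v hv).2
    rw [nb_same]
    rcases hs1 with e | e <;> rw [e] at h2 ⊢ <;> omega
  have hZX : ∀ w ∈ Z, w ∈ X B TQ TL (t + 1) := by
    intro w hw
    rw [hZ, Finset.mem_image] at hw
    obtain ⟨v, hv, h3⟩ := hw
    have h2 := hZk v hv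
    have hvU := ((hU0m v).1 hv).1
    unfold X
    rw [Finset.mem_filter]
    constructor
    · rw [← h3]
      apply hCnext v hvU
      intro hB
      have := M_le h (-ep t) (sgn2 t) (κ v) t _ hB
      omega
    · left
      refine ⟨κ v, (hκ v hv).1, ?_⟩
      rw [ep_succ, M_neg h, ← h3]
      exact h2
  -- elements of `K` are adjacent to the fire
  have hKadj : ∀ x ∈ K, ∃ u ∈ B t, ∃ j, ∃ δ : ℤ, (δ = 1 ∨ δ = -1) ∧ x = nb δ j u := by
    intro x hx
    rw [hK, Finset.mem_filter] at hx
    unfold S at hx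
    rw [Finset.mem_union] at hx
    rcases hx.1 with hx1 | hx1
    · unfold R at hx1
      rw [Finset.mem_filter] at hx1
      obtain ⟨-, u, hu, j, h2 | h2⟩ := hx1
      · exact ⟨u, hu, j, 1, Or.inl rfl, h2⟩
      · exact ⟨u, hu, j, -1, Or.inr rfl, h2⟩
    · unfold X at hx1
      rw [Finset.mem_filter, mem_C] at hx1
      obtain ⟨⟨-, u, hu, -, j, h2⟩, -⟩ := hx1
      exact ⟨u, hu, j, ep t, hs1, h2⟩
  have hKR : ∀ x ∈ K, x ∈ R B P (t + 1) := by
    intro x hx
    obtain ⟨u, hu, j, δ, hδ, h2⟩ := hKadj x hx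
    rw [hK, Finset.mem_filter] at hx
    unfold R
    rw [Finset.mem_filter]
    refine ⟨hx.2, u, h.sub t hu, j, ?_⟩
    rcases hδ with rfl | rfl
    · left; exact h2
    · right; exact h2
  have hKY : ∀ i, ∀ w ∈ Y i, w ∉ K := by
    intro i w hw hwK
    have hwi := hYi i w hw
    obtain ⟨v, hv, -, j', -, h3⟩ := hYm i w hw
    have hsw : sm w = tp t := by rw [h3]; exact hsmU v hv j'
    obtain ⟨u, hu, j, δ, hδ, h2⟩ := hKadj w hwK
    have h4 := M_le h (ep t) (sgn1 t) i t u hu
    have h5 := h.sm01 t u hu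
    by_cases hij : i = j
    · subst hij
      rw [h2, nb_same] at hwi
      rw [h2, sm_nb] at hsw
      rcases ep_cases t with ⟨e1, e2⟩ | ⟨e1, e2⟩ <;> rw [e1] at hwi h4 <;> rw [e2] at hsw <;>
        rcases hδ with rfl | rfl <;> omega
    · rw [h2, nb_ne _ _ _ _ hij] at hwi
      omega
  have hKZ : ∀ w ∈ Z, w ∉ K := by
    intro w hw hwK
    rw [hZ, Finset.mem_image] at hw
    obtain ⟨v, hv, h3⟩ := hw
    have hwk := hZk v hv
    have hvU := ((hU0m v).1 hv).1
    obtain ⟨u, hu, j, δ, hδ, h2⟩ := hKadj w hwK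
    have h4 := M_le h (-ep t) (sgn2 t) (κ v) t u hu
    have h3' : nb (-ep t) (κ v) v = w := h3
    rw [h3'] at hwk
    by_cases hij : κ v = j
    · have hδ' : δ = -ep t := by
        rw [h2, ← hij, nb_same] at hwk
        rcases hs1 with e | e <;> rw [e] at hwk h4 ⊢ <;> rcases hδ with rfl | rfl <;> omega
      have h6 : nb (-ep t) (κ v) u = nb (-ep t) (κ v) v := by
        rw [h3', h2, hδ', hij]
      have h7 := nb_inj _ _ h6
      rw [h7] at hu
      have := hUC v hvU
      rw [mem_C] at this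
      exact this.1 hu
    · rw [h2, nb_ne _ _ _ _ hij] at hwk
      omega
  -- sizes
  have hYcard : ∀ i ∈ TL, (UL i).card +
      (if M B (ep t) i (t + 1) = M B (ep t) i t + 1 then 1 else 0) ≤ (Y i).card := by
    intro i hi
    split_ifs with hM
    · have hne : (UL i).Nonempty := by
        rcases M_succ_cases (B := B) (ep t) i t with ⟨-, v, hv, h4⟩ | ⟨h4, -⟩
        · refine ⟨v, ?_⟩
          rw [hULm]
          refine ⟨?_, h4⟩
          rw [mem_succ h] at hv
          rcases hv with hv | ⟨hv1, hv2⟩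
          · have := M_le h (ep t) (sgn1 t) i t v hv
            omega
          · rw [hU, Finset.mem_filter]
            unfold X
            rw [Finset.mem_filter]
            exact ⟨⟨hv1, Or.inl ⟨i, hi, h4⟩⟩, hv2⟩
        · omega
      exact line_grow (ep t) hs1 i (UL i) hne
    · rw [add_zero]
      calc (UL i).card = ((UL i).image (nb (-ep t) (i + 1))).card := by
            rw [Finset.card_image_of_injective _ (nb_inj _ _)]
        _ ≤ _ := by
            apply Finset.card_le_card
            intro w hw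
            simp only [hY, Finset.mem_union]
            left; exact hw
  have hZcard : Z.card = U0.card := by
    rw [hZ]
    apply Finset.card_image_of_injOn
    intro v hv v' hv' heq
    have heq' : nb (-ep t) (κ v) v = nb (-ep t) (κ v') v' := heq
    have hv1 : v ∈ U0 := hv
    have hv1' : v' ∈ U0 := hv'
    by_cases hkk : κ v = κ v'
    · rw [hkk] at heq'
      exact nb_inj _ _ heq'
    · exfalso
      have h2 := hZk v hv1
      rw [heq', nb_ne _ _ _ _ hkk] at h2
      have h3 := C_N h t v' (hUC v' ((hU0m v').1 hv1').1) (κ v)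
      omega
  have hYdisj : ∀ i ∈ TL, ∀ i' ∈ TL, i ≠ i' → Disjoint (Y i) (Y i') := by
    intro i _ i' _ hne
    rw [Finset.disjoint_left]
    intro w hw hw'
    have h2 := hYi i' w hw'
    obtain ⟨v, hv, h3, j, hj, h4⟩ := hYm i w hw
    obtain ⟨j0, h5, h6⟩ := C_L h t v (hUC v hv)
    have h7 := desc_le (ep t) hs1 j i' v
    rw [← h4] at h7
    by_cases h8 : i = j0
    · have := h6 i' (by rw [← h8]; exact fun h => hne h.symm)
      omega
    · have := h6 i h8
      omega
  have hZY : Disjoint (TL.biUnion Y) Z := by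
    rw [Finset.disjoint_left]
    intro w hw hw'
    rw [Finset.mem_biUnion] at hw
    obtain ⟨i, hi, hw⟩ := hw
    have h2 := hYi i w hw
    rw [hZ, Finset.mem_image] at hw'
    obtain ⟨v, hv, h3⟩ := hw'
    have h3' : nb (-ep t) (κ v) v = w := h3
    have h4 := hZk v hv
    rw [h3'] at h4
    by_cases hik : i = κ v
    · rw [← hik] at h4
      have h5 := M_nonneg (B := B) (ep t) i t
      have h6 := M_nonneg (B := B) (-ep t) i t
      rcases hs1 with e | e <;> rw [e] at h2 h4 h5 h6 <;> omega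
    · rw [← h3', nb_ne _ _ _ _ hik] at h2
      exact ((hU0m v).1 hv).2 i hi h2
  have hUsub : U ⊆ TL.biUnion UL ∪ U0 := by
    intro v hv
    rw [Finset.mem_union, Finset.mem_biUnion]
    by_cases h2 : ∃ i ∈ TL, ep t * v i = M B (ep t) i t + 1
    · left
      obtain ⟨i, hi, h3⟩ := h2
      exact ⟨i, hi, (hULm i v).2 ⟨hv, h3⟩⟩
    · right
      rw [hU0m]
      refine ⟨hv, ?_⟩
      intro i hi h3
      exact h2 ⟨i, hi, h3⟩
  have hUcard : U.card ≤ ∑ i ∈ TL, (UL i).card + U0.card := by
    calc U.card ≤ (TL.biUnion UL ∪ U0).card := Finset.card_le_card hUsub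
      _ ≤ (TL.biUnion UL).card + U0.card := Finset.card_union_le _ _
      _ ≤ _ := by
        have := Finset.card_biUnion_le (s := TL) (t := UL)
        omega
  have hScard : (S B P TL TQ t).card ≤ K.card + U.card := by
    calc (S B P TL TQ t).card ≤ (K ∪ U).card := by
          apply Finset.card_le_card
          intro w hw
          rw [Finset.mem_union]
          by_cases hwP : w ∈ P (t + 1)
          · left
            rw [hK, Finset.mem_filter]
            exact ⟨hw, hwP⟩
          · right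
            rw [hU, Finset.mem_filter]
            refine ⟨?_, hwP⟩
            unfold S at hw
            rw [Finset.mem_union] at hw
            rcases hw with hw | hw
            · unfold R at hw
              rw [Finset.mem_filter] at hw
              exact absurd (h.mono t hw.1) hwP
            · exact hw
      _ ≤ _ := Finset.card_union_le _ _
  have hbig : K.card + (∑ i ∈ TL, (Y i).card + Z.card) ≤ (S B P TQ TL (t + 1)).card := by
    have e1 : (TL.biUnion Y ∪ Z).card = ∑ i ∈ TL, (Y i).card + Z.card := by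
      rw [Finset.card_union_of_disjoint hZY]
      rw [Finset.card_biUnion hYdisj]
    rw [← e1]
    have hd : Disjoint K (TL.biUnion Y ∪ Z) := by
      rw [Finset.disjoint_right]
      intro w hw
      rw [Finset.mem_union, Finset.mem_biUnion] at hw
      rcases hw with ⟨i, -, hw⟩ | hw
      · exact hKY i w hw
      · exact hKZ w hw
    rw [← Finset.card_union_of_disjoint hd]
    apply Finset.card_le_card
    intro w hw
    unfold S
    rw [Finset.mem_union]
    rw [Finset.mem_union, Finset.mem_union, Finset.mem_biUnion] at hw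
    rcases hw with hw | ⟨i, hi, hw⟩ | hw
    · left; exact hKR w hw
    · right; exact hYX i hi w hw
    · right; exact hZX w hw
  have hsum : ∑ i ∈ TL, (UL i).card +
      (TL.filter (fun i => M B (ep t) i (t + 1) = M B (ep t) i t + 1)).card ≤
      ∑ i ∈ TL, (Y i).card := by
    rw [Finset.card_filter, ← Finset.sum_add_distrib]
    exact Finset.sum_le_sum hYcard
  omega

end HexRate
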