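import Pool.Agent.HexRate.Count
import Pool.Agent.HexLoan.Seq

set_option autoImplicit false

/-!
Transfer between the brick-wall model on `ℤ × ℤ` and the hexagonal coordinates.
-/

namespace HexRate

/-- from hexagonal coordinates to the brick-wall model -/
def back (w : W) : ℤ × ℤ := (w 1 - w 2, w 0)

/-- from the brick-wall model to hexagonal coordinates -/
def hx (v : ℤ × ℤ) : W := ![v.2, (v.1 - v.2 + 1) / 2, -((v.1 + v.2) / 2)]

theorem back_hx (v : ℤ × ℤ) : back (hx v) = v := by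
  obtain ⟨x, y⟩ := v
  unfold back hx
  simp
  omega

theorem hx_sm (v : ℤ × ℤ) : sm (hx v) = (v.1 + v.2) % 2 := by
  obtain ⟨x, y⟩ := v
  unfold sm hx
  simp
  omega

theorem hx_back (w : W) (hw : sm w = 0 ∨ sm w = 1) : hx (back w) = w := by
  unfold sm at hw
  funext j
  unfold hx back
  fin_cases j <;> simp <;> omega

theorem hx_inj : Function.Injective hx := by
  intro u v h
  have := congrArg back h
  rwa [back_hx, back_hx] at this

theorem ext3 (v w : W) : v = w ↔ v 0 = w 0 ∧ v 1 = w 1 ∧ v 2 = w 2 := by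
  constructor
  · rintro rfl; exact ⟨rfl, rfl, rfl⟩
  · rintro ⟨h0, h1, h2⟩
    funext j
    fin_cases j <;> assumption

theorem nb0 (ε : ℤ) (v : W) : (nb ε 0 v) 0 = v 0 + ε ∧ (nb ε 0 v) 1 = v 1 ∧ (nb ε 0 v) 2 = v 2 :=
  ⟨nb_same _ _ _, nb_ne _ _ _ _ (by decide), nb_ne _ _ _ _ (by decide)⟩

theorem nb1 (ε : ℤ) (v : W) : (nb ε 1 v) 0 = v 0 ∧ (nb ε 1 v) 1 = v 1 + ε ∧ (nb ε 1 v) 2 = v 2 :=
  ⟨nb_ne _ _ _ _ (by decide), nb_same _ _ _, nb_ne _ _ _ _ (by decide)⟩

theorem nb2 (ε : ℤ) (v : W) : (nb ε 2 v) 0 = v 0 ∧ (nb ε 2 v) 1 = v 1 ∧ (nb ε 2 v) 2 = v 2 + ε :=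
  ⟨nb_ne _ _ _ _ (by decide), nb_ne _ _ _ _ (by decide), nb_same _ _ _⟩

theorem hx0 (v : ℤ × ℤ) : hx v 0 = v.2 := rfl
theorem hx1 (v : ℤ × ℤ) : hx v 1 = (v.1 - v.2 + 1) / 2 := rfl
theorem hx2 (v : ℤ × ℤ) : hx v 2 = -((v.1 + v.2) / 2) := rfl

/-- adjacency of the brick-wall model -/
def BAdj (u v : ℤ × ℤ) : Prop := (u.2 = v.2 ∧ (u.1 - v.1 = 1 ∨ v.1 - u.1 = 1)) ∨
    (u.1 = v.1 ∧ ((Even (u.1 + u.2) ∧ v.2 = u.2 + 1) ∨ (Even (v.1 + v.2) ∧ u.2 = v.2 + 1)))

/-- adjacency in both models -/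
theorem adj_mp (u v : ℤ × ℤ) (h : BAdj u v) :
    ∃ i, (sm (hx u) = 0 ∧ hx v = nb 1 i (hx u)) ∨ (sm (hx u) = 1 ∧ hx v = nb (-1) i (hx u)) := by
  rw [hx_sm]
  obtain ⟨x, y⟩ := u
  obtain ⟨x', y'⟩ := v
  unfold BAdj at h
  simp only [Int.even_iff] at h
  rcases h with ⟨h1, h2 | h2⟩ | ⟨h1, ⟨h2, h3⟩ | ⟨h2, h3⟩⟩
  · rcases Int.emod_two_eq_zero_or_one (x + y) with hp | hp
    · refine ⟨2, Or.inl ⟨hp, ?_⟩⟩
      rw [ext3, (nb2 _ _).1, (nb2 _ _).2.1, (nb2 _ _).2.2, hx0, hx1, hx2, hx0, hx1, hx2]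
      simp only
      omega
    · refine ⟨1, Or.inr ⟨hp, ?_⟩⟩
      rw [ext3, (nb1 _ _).1, (nb1 _ _).2.1, (nb1 _ _).2.2, hx0, hx1, hx2, hx0, hx1, hx2]
      simp only
      omega
  · rcases Int.emod_two_eq_zero_or_one (x + y) with hp | hp
    · refine ⟨1, Or.inl ⟨hp, ?_⟩⟩
      rw [ext3, (nb1 _ _).1, (nb1 _ _).2.1, (nb1 _ _).2.2, hx0, hx1, hx2, hx0, hx1, hx2]
      simp only
      omega
    · refine ⟨2, Or.inr ⟨hp, ?_⟩⟩
      rw [ext3, (nb2 _ _).1, (nb2 _ _).2.1, (nb2 _ _).2.2, hx0, hx1, hx2, hx0, hx1, hx2]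
      simp only
      omega
  · refine ⟨0, Or.inl ⟨h2, ?_⟩⟩
    rw [ext3, (nb0 _ _).1, (nb0 _ _).2.1, (nb0 _ _).2.2, hx0, hx1, hx2, hx0, hx1, hx2]
    simp only at h1 h2 h3 ⊢
    omega
  · refine ⟨0, Or.inr ⟨by simp only at h1 h2 h3 ⊢; omega, ?_⟩⟩
    rw [ext3, (nb0 _ _).1, (nb0 _ _).2.1, (nb0 _ _).2.2, hx0, hx1, hx2, hx0, hx1, hx2]
    simp only at h1 h2 h3 ⊢
    omega

theorem adj_mpr (u v : ℤ × ℤ) (h : ∃ i, (sm (hx u) = 0 ∧ hx v = nb 1 i (hx u)) ∨
    (sm (hx u) = 1 ∧ hx v = nb (-1) i (hx u))) : BAdj u v := by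
  rw [hx_sm] at h
  obtain ⟨x, y⟩ := u
  obtain ⟨x', y'⟩ := v
  unfold BAdj
  simp only [Int.even_iff]
  obtain ⟨i, ⟨h1, h2⟩ | ⟨h1, h2⟩⟩ := h
  · have hi : i = 0 ∨ i = 1 ∨ i = 2 := by fin_cases i <;> simp
    rcases hi with rfl | rfl | rfl
    · rw [ext3, (nb0 _ _).1, (nb0 _ _).2.1, (nb0 _ _).2.2, hx0, hx1, hx2, hx0, hx1, hx2] at h2
      simp only at h1 h2
      omega
    · rw [ext3, (nb1 _ _).1, (nb1 _ _).2.1, (nb1 _ _).2.2, hx0, hx1, hx2, hx0, hx1, hx2] at h2
      simp only at h1 h2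
      omega
    · rw [ext3, (nb2 _ _).1, (nb2 _ _).2.1, (nb2 _ _).2.2, hx0, hx1, hx2, hx0, hx1, hx2] at h2
      simp only at h1 h2
      omega
  · have hi : i = 0 ∨ i = 1 ∨ i = 2 := by fin_cases i <;> simp
    rcases hi with rfl | rfl | rfl
    · rw [ext3, (nb0 _ _).1, (nb0 _ _).2.1, (nb0 _ _).2.2, hx0, hx1, hx2, hx0, hx1, hx2] at h2
      simp only at h1 h2
      omega
    · rw [ext3, (nb1 _ _).1, (nb1 _ _).2.1, (nb1 _ _).2.2, hx0, hx1, hx2, hx0, hx1, hx2] at h2
      simp only at h1 h2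
      omega
    · rw [ext3, (nb2 _ _).1, (nb2 _ _).2.1, (nb2 _ _).2.2, hx0, hx1, hx2, hx0, hx1, hx2] at h2
      simp only at h1 h2
      omega

/-- a neighbour of a vertex of the lattice is a vertex of the lattice -/
theorem nb_lattice (u w : W) (h : ∃ i, (sm u = 0 ∧ w = nb 1 i u) ∨ (sm u = 1 ∧ w = nb (-1) i u)) :
    sm w = 0 ∨ sm w = 1 := by
  obtain ⟨i, ⟨h1, rfl⟩ | ⟨h1, rfl⟩⟩ := h
  · right; rw [sm_nb, h1]; rfl
  · left; rw [sm_nb, h1]; rfl

/-- a supply that contains the fire gives a play with a bounded burning set -/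
theorem play_of_contained (a : ℕ → ℕ) (h : HexLoan.Contained a) :
    ∃ (B P : ℕ → Finset W) (F : Finset W), Play B P ∧ (∀ t, B t ⊆ F) ∧
      ∀ t, (P t).card ≤ ∑ s ∈ Finset.Icc 1 t, a s := by
  classical
  obtain ⟨A, B, P, hA, hB0, hP0, hstep, hfin⟩ := h
  have hsub : ∀ t, B t ⊆ ⋃ t, B t := fun t => Set.subset_iUnion B t
  have hBfin : ∀ t, (B t).Finite := fun t => hfin.subset (hsub t)
  have hPfin : ∀ t, (P t).Finite := by
    intro t
    induction t with
    | zero => rw [hP0]; exact Set.finite_empty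
    | succ t ih =>
      rw [(hstep t).2.1]
      exact ih.union (A (t + 1)).finite_toSet
  have hPcard : ∀ t, (hPfin t).toFinset.card ≤ ∑ s ∈ Finset.Icc 1 t, a s := by
    intro t
    induction t with
    | zero =>
      have : (hPfin 0).toFinset = ∅ := by
        ext v
        simp [hP0]
      rw [this]
      simp
    | succ t ih =>
      rw [Finset.sum_Icc_succ_top (by omega)]
      have h1 : (hPfin (t + 1)).toFinset ⊆ (hPfin t).toFinset ∪ A (t + 1) := by
        intro v hv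
        rw [Set.Finite.mem_toFinset, (hstep t).2.1] at hv
        rw [Finset.mem_union, Set.Finite.mem_toFinset]
        rcases hv with hv | hv
        · left; exact hv
        · right; exact hv
      calc _ ≤ _ := Finset.card_le_card h1
        _ ≤ _ := Finset.card_union_le _ _
        _ ≤ _ := by
          have := hA (t + 1) (by omega)
          omega
  have hmB : ∀ t w, w ∈ (hBfin t).toFinset.image hx ↔ (sm w = 0 ∨ sm w = 1) ∧ back w ∈ B t := by
    intro t w
    rw [Finset.mem_image]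
    constructor
    · rintro ⟨v, hv, rfl⟩
      rw [Set.Finite.mem_toFinset] at hv
      rw [back_hx]
      refine ⟨?_, hv⟩
      rw [hx_sm]
      omega
    · rintro ⟨h1, h2⟩
      exact ⟨back w, (Set.Finite.mem_toFinset _).2 h2, hx_back w h1⟩
  have hmP : ∀ t w, w ∈ (hPfin t).toFinset.image hx ↔ (sm w = 0 ∨ sm w = 1) ∧ back w ∈ P t := by
    intro t w
    rw [Finset.mem_image]
    constructor
    · rintro ⟨v, hv, rfl⟩
      rw [Set.Finite.mem_toFinset] at hv
      rw [back_hx]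
      refine ⟨?_, hv⟩
      rw [hx_sm]
      omega
    · rintro ⟨h1, h2⟩
      exact ⟨back w, (Set.Finite.mem_toFinset _).2 h2, hx_back w h1⟩
  have hdisj : ∀ t, ∀ v ∈ P t, v ∉ B t := by
    intro t
    induction t with
    | zero =>
      intro v hv
      rw [hP0] at hv
      exact absurd hv (Set.notMem_empty v)
    | succ t ih =>
      intro v hv hvB
      have hv' := hv
      rw [(hstep t).2.2] at hvB
      rw [(hstep t).2.1] at hv
      rcases hvB with hvB | hvB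
      · rcases hv with hv | hv
        · exact ih v hv hvB
        · exact (hstep t).1 v hv hvB
      · exact hvB.1 hv'
  refine ⟨fun t => (hBfin t).toFinset.image hx, fun t => (hPfin t).toFinset.image hx,
    hfin.toFinset.image hx, ?_, ?_, ?_⟩
  · refine ⟨?_, ?_, ?_, ?_, ?_⟩
    · ext w
      show w ∈ (hBfin 0).toFinset.image hx ↔ _
      rw [hmB, hB0, Finset.mem_singleton, Set.mem_singleton_iff]
      constructor
      · rintro ⟨h1, h2⟩
        unfold back at h2
        unfold sm at h1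
        simp only [Prod.mk.injEq] at h2
        rw [ext3]
        simp only [Pi.zero_apply]
        omega
      · rintro rfl
        constructor
        · left; simp [sm]
        · simp [back]
    · ext w
      show w ∈ (hPfin 0).toFinset.image hx ↔ _
      rw [hmP, hP0]
      simp
    · intro t w hw
      show w ∈ (hPfin (t + 1)).toFinset.image hx
      rw [hmP] at hw ⊢
      refine ⟨hw.1, ?_⟩
      rw [(hstep t).2.1]
      left; exact hw.2
    · intro t w hw hwB
      have hwB' : w ∈ (hBfin t).toFinset.image hx := hwB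
      have hw' : w ∈ (hPfin (t + 1)).toFinset.image hx := hw
      rw [hmB] at hwB'
      rw [hmP] at hw'
      have h1 : back w ∈ B (t + 1) := by
        rw [(hstep t).2.2]
        left; exact hwB'.2
      exact hdisj (t + 1) _ hw'.2 h1
    · intro t w
      show w ∈ (hBfin (t + 1)).toFinset.image hx ↔ w ∈ (hBfin t).toFinset.image hx ∨
        (w ∉ (hPfin (t + 1)).toFinset.image hx ∧ ∃ u ∈ (hBfin t).toFinset.image hx, _)
      rw [hmB, hmB, hmP]
      constructor
      · rintro ⟨h1, h2⟩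
        rw [(hstep t).2.2] at h2
        rcases h2 with h2 | ⟨h2, u, hu, h3⟩
        · left; exact ⟨h1, h2⟩
        · right
          refine ⟨fun h4 => h2 h4.2, hx u, ?_, ?_⟩
          · rw [hmB, back_hx]
            refine ⟨?_, hu⟩
            rw [hx_sm]
            omega
          · have := adj_mp u (back w) h3
            rw [hx_back w h1] at this
            exact this
      · rintro (⟨h1, h2⟩ | ⟨h2, u, hu, h3⟩)
        · refine ⟨h1, ?_⟩
          rw [(hstep t).2.2]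
          left; exact h2
        · have h1 := nb_lattice u w h3
          rw [hmB] at hu
          refine ⟨h1, ?_⟩
          rw [(hstep t).2.2]
          right
          refine ⟨fun h4 => h2 ⟨h1, h4⟩, back u, hu.2, ?_⟩
          apply adj_mpr (back u) (back w)
          rw [hx_back u hu.1, hx_back w h1]
          exact h3
  · intro t w hw
    have hw' : w ∈ (hBfin t).toFinset.image hx := hw
    rw [Finset.mem_image] at hw' ⊢
    obtain ⟨v, hv, h1⟩ := hw'
    refine ⟨v, ?_, h1⟩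
    rw [Set.Finite.mem_toFinset] at hv ⊢
    exact hsub t hv
  · intro t
    exact le_trans Finset.card_image_le (hPcard t)

/-- the rate theorem -/
theorem rate (a : ℕ → ℕ) (ha : ∀ t, 6 * ∑ s ∈ Finset.Icc 1 t, a s ≤ 5 * t) :
    ¬ HexLoan.Contained a := by
  intro h
  obtain ⟨B, P, F, hplay, hF, hP⟩ := play_of_contained a h
  obtain ⟨t, ht⟩ := unbounded hplay.game (fun t => le_trans (Nat.mul_le_mul_left 6 (hP t)) (ha t)) F
  exact ht (hF t)

end HexRate
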